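import Mathlib
import Pool.Agent.H.MP_234613_al.Main

set_option autoImplicit false

namespace Pool.Agent.Results.MP_234613_al.Counter

/-- `F_*R`: the additive group of `R`, to be given the action `r • s = r ^ p * s`. -/
def FrobPush (R : Type) (_p : ℕ) : Type := R

instance (R : Type) (p : ℕ) [CommRing R] : AddCommGroup (FrobPush R p) :=
  inferInstanceAs (AddCommGroup R)

instance (R : Type) (p : ℕ) [CommRing R] [ExpChar R p] : Module R (FrobPush R p) :=
  Module.compHom R (frobenius R p)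

/-- The element `F_*1`. -/
def one (R : Type) (p : ℕ) [CommRing R] : FrobPush R p := (1 : R)

/-- `F`-purity: `M → M ⊗ F_*R`, `m ↦ m ⊗ F_*1`, is injective for every module `M`. -/
def IsFPure (R : Type) (p : ℕ) [CommRing R] [ExpChar R p] : Prop :=
  ∀ (M : Type) [AddCommGroup M] [Module R M],
    Function.Injective (fun m : M => m ⊗ₜ[R] one R p)

theorem result :
    ∃ (R : Type) (_ : CommRing R) (_ : CharP R 2),
      IsDomain R ∧ IsLocalRing R ∧ IsNoetherianRing R ∧ ringKrullDim R = 1 ∧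
      IsFPure R 2 ∧
      (∃ φ : FrobPush R 2 →ₗ[R] R, φ ≠ 0) ∧
      ¬ ∃ φ : FrobPush R 2 →ₗ[R] R, φ (one R 2) = 1 := by
  open Pool.Agent.H.MP_234613_al in
  obtain ⟨h1, h2, h3, ⟨I, hI, h4⟩, ⟨φ, hφ, h5⟩, h6⟩ := main
  have hc : CharP (PowerSeries Kf) 2 :=
    charP_of_injective_algebraMap (algebraMap Kf (PowerSeries Kf)).injective 2
  refine ⟨RR BB sK, inferInstance, inferInstance, inferInstance, h1, h2, h3, ?_, ?_, ?_⟩
  · intro M _ _
    refine pure_of_approx I hI (one (RR BB sK) 2) (fun n => ?_) M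
    obtain ⟨g, hg, hg1⟩ := h4 n
    exact ⟨{ toFun := g, map_add' := g.map_add, map_smul' := hg }, hg1⟩
  · refine ⟨{ toFun := φ, map_add' := φ.map_add, map_smul' := hφ }, fun h => h5 ?_⟩
    exact congrArg (fun f => f (one (RR BB sK) 2)) h
  · rintro ⟨ψ, hψ⟩
    exact h6 ⟨ψ.toAddMonoidHom, fun r s => ψ.map_smul r s, hψ⟩

end Pool.Agent.Results.MP_234613_al.Counter
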